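import Mathlib
import Pool.Agent.Helper88.PN10

set_option autoImplicit false

/-!
# Q1 of MP_20903f_al: `p`-nilpotence from the Sylow normaliser and `c`-embedding inside `P`
-/

namespace Pool.Agent.Results.MP_20903f_al.SylowEmbedding

open Pool.Agent.Helper88.PN

universe u

/-- **Full (positive) answer to Q1.**  For every odd prime `p`, every finite group `G` and every
Sylow `p`-subgroup `P` of `G`, the group `G` is `p`-nilpotent if and only if
(1) `N_G(P)` is `p`-nilpotent, and
(2') for each `x ∈ G ∖ N_G(P)`, each subgroup of order `p` of `G^{U_p} ∩ P ∩ P^x` is `c`-embedded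
in `P` with respect to `P`. -/
theorem result (p : ℕ) (hp : p.Prime) (hodd : Odd p) (G : Type u) [Group G] [Finite G]
    (P : Sylow p G) :
    PNilpotent p G ↔
      PNilpotent p (Subgroup.normalizer ((P : Subgroup G) : Set G)) ∧
        Cond2' p (P : Subgroup G) := by
  have : Fact p.Prime := ⟨hp⟩
  exact main (by rintro rfl; exact absurd hodd (by decide)) P

end Pool.Agent.Results.MP_20903f_al.SylowEmbedding
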